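import Mathlib
import Pool.Agent.Mg.F43e117.G8d341a

/- The two over two ratios conjecture over F_q[t] for shifts in the denominator with real part
at least c, with error exponent 2c. -/

set_option autoImplicit false
set_option maxHeartbeats 400000

namespace Pool.Agent.Results.MP_dd7250_nt.Ratios

open Polynomial Finset Pool.Agent.MP_dd7250_nt

theorem result (F : Type) [Field F] [Fintype F] (hq : Odd (Fintype.card F)) (ε : ℝ)
    (hε : 0 < ε) : ∃ K : ℝ, ∀ g : ℕ, 1 ≤ g → ∀ (α β γ δ : ℂ) (c : ℝ), c ≤ 1 / 2 → c ≤ γ.re →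
      c ≤ δ.re → |α.re| + |β.re| + ε ≤ c →
      (Fintype.card F : ℂ) ^ (2 * α) ≠ 1 → (Fintype.card F : ℂ) ^ (2 * β) ≠ 1 →
      (Fintype.card F : ℂ) ^ (2 * (α + β)) ≠ 1 → (Fintype.card F : ℂ) ^ (2 * (α - β)) ≠ 1 →
      ‖avg g (fun D : F[X] => Lf D (1 / 2 + α) * Lf D (1 / 2 + β) /
          (Lf D (1 / 2 + γ) * Lf D (1 / 2 + δ))) -
        ∑ e₁ ∈ ({1, -1} : Finset ℤ), ∑ e₂ ∈ ({1, -1} : Finset ℤ),
          (Fintype.card F : ℂ) ^ (-(g * ((1 - e₁) * α + (1 - e₂) * β))) *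
            GG F (e₁ * α) (e₂ * β) γ δ‖ ≤
        K * (Fintype.card F : ℝ) ^
          (-(2 * c - 2 * max 0 (-α.re) - 2 * max 0 (-β.re) - ε) * g) := by
  have hF : ringChar F ≠ 2 := fun h => by
    have := FiniteField.even_card_of_char_two h
    rcases hq with ⟨k, hk⟩
    omega
  obtain ⟨K, hK⟩ := asm_main hF hε
  have hq1 := one_lt_Q (F := F)
  have hq0 : (Q F : ℂ) ≠ 0 := Q_ne
  refine ⟨K / (Q F - 1), fun g hg α β γ δ c hc hγ hδ ha h1 h2 h3 h4 => ?_⟩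
  obtain ⟨hR, g0⟩ := GG_eq hF hε hc hγ hδ ha
  have g1 := (GG_eq hF hε (α := -α) (β := β) hc hγ hδ (by simpa using ha)).2
  have g2 := (GG_eq hF hε (α := α) (β := -β) hc hγ hδ (by simpa using ha)).2
  have g3 := (GG_eq hF hε (α := -α) (β := -β) hc hγ hδ (by simpa using ha)).2
  have e1 : ∀ x : ℂ, Q F * uu F x ^ 2 = ((Q F : ℂ) ^ (2 * x))⁻¹ := fun x => by
    rw [_root_.sq, br_Q_mul, Complex.cpow_neg, two_mul]
  have e2 : ∀ x y : ℂ, (Q F : ℂ) ^ (2 * (x + y)) = (Q F : ℂ) ^ (2 * x) * (Q F : ℂ) ^ (2 * y) :=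
    fun x y => by rw [mul_add, Complex.cpow_add _ _ hq0]
  have e3 : ∀ x : ℂ, (Q F : ℂ) ^ x ≠ 0 := fun x => asm_ne (br_norm x)
  have key := hK c α.re β.re _ hR (by
      change Q F * uu F α ^ 2 ≠ 1
      rw [e1]; exact inv_ne_one.2 h1) (by
      change Q F * uu F β ^ 2 ≠ 1
      rw [e1]; exact inv_ne_one.2 h2) (by
      change (Q F : ℂ) ^ 2 * uu F α ^ 2 * uu F β ^ 2 ≠ 1
      rw [show (Q F : ℂ) ^ 2 * uu F α ^ 2 * uu F β ^ 2 =
        Q F * uu F α ^ 2 * (Q F * uu F β ^ 2) by ring, e1, e1, ← mul_inv, ← e2]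
      exact inv_ne_one.2 h3) (by
      change uu F α ^ 2 ≠ uu F β ^ 2
      intro h5
      have h6 := e1 α
      rw [h5, e1, inv_inj] at h6
      refine h4 ?_
      rw [mul_sub, Complex.cpow_sub _ _ hq0, h6, div_self (e3 _)]) g
  simp only [Matrix.cons_val_zero, Matrix.cons_val_one, Matrix.cons_val, uu_neg, e1] at key
  rw [← g0, ← g1, ← g2, ← g3] at key
  have hT : TW (F := F) (wt (uu F γ) (uu F δ)) (uu F α) (uu F β) g =
      ∑ D ∈ sqF F (2 * g + 1), Lf D (1 / 2 + α) * Lf D (1 / 2 + β) /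
        (Lf D (1 / 2 + γ) * Lf D (1 / 2 + δ)) := by
    refine sum_congr rfl fun D hD => ?_
    rw [Lf_eq hF hD, Lf_eq hF hD, Lf_eq hF hD, Lf_eq hF hD, wt, (mem_sqF.1 hD).2.2,
      Lt_trunc hF hD (by omega), Lt_trunc hF hD (I := 2 * g + 1) (by omega), div_eq_inv_mul]
    rfl
  have hn : ((Q F : ℂ) - 1) * (Q F : ℂ) ^ (2 * g) ≠ 0 := by
    refine mul_ne_zero (sub_ne_zero.2 ?_) (pow_ne_zero _ hq0)
    exact_mod_cast hq1.ne'
  have hnn : ‖((Q F : ℂ) - 1) * (Q F : ℂ) ^ (2 * g)‖ = (Q F - 1) * qp F (2 * g) := by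
    rw [norm_mul, norm_pow, Complex.norm_natCast, ← qp_nat, Nat.cast_mul, Nat.cast_ofNat,
      ← Complex.ofReal_natCast, ← Complex.ofReal_one, ← Complex.ofReal_sub, Complex.norm_real,
      Real.norm_of_nonneg (by linarith)]
  have e4 : ∀ x y : ℂ, (Q F : ℂ) ^ (-(g * (2 * x + 2 * y))) =
      ((Q F : ℂ) ^ (2 * x))⁻¹ ^ g * ((Q F : ℂ) ^ (2 * y))⁻¹ ^ g := fun x y => by
    rw [Complex.cpow_neg, Complex.cpow_nat_mul, Complex.cpow_add _ _ hq0, mul_pow, mul_inv,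
      inv_pow, inv_pow]
  have hS : ∑ e₁ ∈ ({1, -1} : Finset ℤ), ∑ e₂ ∈ ({1, -1} : Finset ℤ),
      (Fintype.card F : ℂ) ^ (-(g * ((1 - e₁) * α + (1 - e₂) * β))) *
        GG F (e₁ * α) (e₂ * β) γ δ =
      GG F α β γ δ + ((Q F : ℂ) ^ (2 * β))⁻¹ ^ g * GG F α (-β) γ δ +
        (((Q F : ℂ) ^ (2 * α))⁻¹ ^ g * GG F (-α) β γ δ +
          ((Q F : ℂ) ^ (2 * α))⁻¹ ^ g * ((Q F : ℂ) ^ (2 * β))⁻¹ ^ g * GG F (-α) (-β) γ δ) := by
    have f1 := e4 0 β
    have f2 := e4 α 0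
    have f3 := e4 α β
    simp only [mul_zero, zero_add, add_zero, Complex.cpow_zero, inv_one, one_pow, one_mul,
      mul_one] at f1 f2
    rw [sum_pair (by decide), sum_pair (by decide), sum_pair (by decide)]
    simp only [Int.cast_one, Int.cast_neg, sub_self, zero_mul, sub_neg_eq_add, one_add_one_eq_two,
      zero_add, add_zero, mul_zero, neg_zero, Complex.cpow_zero, one_mul, neg_mul, f1, f2, f3]
  rw [avg_eq hg, ← hT, hS, div_sub' hn, norm_div, hnn, div_le_iff₀ (by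
    have := qp_pos (F := F) (2 * g); have : (0 : ℝ) < Q F - 1 := by linarith
    positivity)]
  refine key.trans_eq ?_
  have e5 : (Q F : ℝ) - 1 ≠ 0 := by linarith
  change _ = K / (Q F - 1) * qp F _ * _
  rw [qp_pow, show (ex c α.re β.re + ε) * g =
    -(2 * c - 2 * max 0 (-α.re) - 2 * max 0 (-β.re) - ε) * g + 2 * g by rw [ex]; ring, qp_add]
  field_simp

end Pool.Agent.Results.MP_dd7250_nt.Ratios
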