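import Pool.Agent.MP_dd7250_nt.NR.Mb
import Pool.Agent.MP_dd7250_nt.NR.Pos
import Pool.Agent.MP_dd7250_nt.NR.AN
import Pool.Agent.MP_dd7250_nt.NR.Pair
import Pool.Agent.MP_dd7250_nt.NR.Root
import Pool.Agent.MP_dd7250_nt.NR.FDb
import Pool.Agent.MP_dd7250_nt.NR.FD2
import Pool.Agent.MP_dd7250_nt.NR.FEb
import Pool.Agent.MP_dd7250_nt.NR.D0
import Pool.Agent.MP_dd7250_nt.NR.NW
import Pool.Agent.MP_dd7250_nt.NR.NumA
import Pool.Agent.MP_dd7250_nt.NR.NumC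

/- The two over two ratios formula over F_q[t] fails, for every power saving, when the shifts in
the numerator may be as large as a small negative power of the genus. -/

set_option autoImplicit false

namespace Pool.Agent.Results.MP_dd7250_nt.RangeFails

open Polynomial Finset Pool.Agent.MP_dd7250_nt

theorem result (F : Type) [Field F] [Fintype F] (hq : Odd (Fintype.card F)) (η θ : ℝ)
    (hθ : 0 < θ) (hη : θ < η / 2) : ∃ c₀ : ℝ, 0 < c₀ ∧ ∀ c : ℝ, 0 < c → c ≤ c₀ →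
      ∀ (K : ℝ) (g₀ : ℕ), ∃ g : ℕ, g₀ ≤ g ∧ 1 ≤ g ∧ ∃ (α β : ℂ) (γ δ : ℝ),
        ‖α‖ ≤ (g : ℝ) ^ (-θ) ∧ ‖β‖ ≤ (g : ℝ) ^ (-θ) ∧ c / g ≤ γ ∧ γ ≤ 2 * c / g ∧
        c / g ≤ δ ∧ δ ≤ 2 * c / g ∧
        (Fintype.card F : ℂ) ^ (2 * α) ≠ 1 ∧ (Fintype.card F : ℂ) ^ (2 * β) ≠ 1 ∧
        (Fintype.card F : ℂ) ^ (α + β) ≠ 1 ∧ (Fintype.card F : ℂ) ^ (α - β) ≠ 1 ∧
        K * (Fintype.card F : ℝ) ^ (-(η * g)) <
          ‖avg g (fun D : F[X] => Lf D (1 / 2 + α) * Lf D (1 / 2 + β) /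
              (Lf D (1 / 2 + γ) * Lf D (1 / 2 + δ))) -
            ∑ e₁ ∈ ({1, -1} : Finset ℤ), ∑ e₂ ∈ ({1, -1} : Finset ℤ),
              (Fintype.card F : ℂ) ^ (-(g * ((1 - e₁) * α + (1 - e₂) * β))) *
                GG F (e₁ * α) (e₂ * β) γ δ‖ := by
  have hF : ringChar F ≠ 2 := fun h => by
    have := FiniteField.even_card_of_char_two h
    rcases hq with ⟨k, hk⟩
    omega
  obtain ⟨c₀, h0, h⟩ := NR.main_of hF hq NR.pos_pf NR.an_pf (NR.pair_pf NR.pos_pf) NR.root_pf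
    (NR.fd2_pf NR.fd1b_pf) NR.fd3b_pf (NR.feb_pf F hF) (NR.d0_pf F hF) (NR.tr_pf F) (NR.nw1_pf F hF)
    (NR.nw2_pf F hF) NR.numA_pf (NR.numC_pf NR.numB_pf) hθ (η := η) (by linarith)
  refine ⟨c₀, h0, fun c c0 c1 K g₀ => ?_⟩
  obtain ⟨g, g0, g1, z, γ, δ, z1, z2, a1, a2, a3, a4, a5⟩ := h c c0 c1 K g₀
  have g2 : (0 : ℝ) < (g : ℝ) ^ (-θ) := Real.rpow_pos_of_pos (by exact_mod_cast g1) _
  have z0 : z ≠ 0 := norm_pos_iff.1 (by linarith)
  have n : ∀ k : ℤ, k ≠ 0 → |(k : ℝ)| ≤ 4 → (Fintype.card F : ℂ) ^ (k * z) ≠ 1 := fun k k0 k1 => by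
    have := NR.xv_ne_one (F := F) (α := -(k * z))
      (neg_ne_zero.2 (mul_ne_zero (Int.cast_ne_zero.2 k0) z0)) (by
        rw [norm_neg, norm_mul, Complex.norm_intCast]
        nlinarith [mul_nonneg (LS.lq_pos_GX (F := F)).le (norm_nonneg z)])
    rwa [LS.xv, neg_neg] at this
  refine ⟨g, g0, g1, z, 2 * z, γ, δ, by linarith, by rw [norm_mul, Complex.norm_two]; linarith,
    a1, a2, a3, a4, by simpa using n 2 (by norm_num) (by norm_num), ?_, ?_, ?_,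
    by rwa [SH.tr_eq hF g1]⟩
  · convert n 4 (by norm_num) (by norm_num) using 2
    push_cast
    ring
  · convert n 3 (by norm_num) (by norm_num) using 2
    push_cast
    ring
  · convert n (-1) (by norm_num) (by norm_num) using 2
    push_cast
    ring

end Pool.Agent.Results.MP_dd7250_nt.RangeFails
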