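import Mathlib
import Pool.Agent.Mg.Fdd7250p.G19b6c2

/- The two over two ratios conjecture over F_q[t] for paired shifts at distance c / g from the
critical line, at all heights, with error exponent (2 - ε) c. -/

set_option autoImplicit false
set_option maxHeartbeats 400000

namespace Pool.Agent.Results.MP_dd7250_nt.RatiosSharp

open Polynomial Finset Pool.Agent.MP_dd7250_nt

theorem result (F : Type) [Field F] [Fintype F] (hq : Odd (Fintype.card F)) (M ε : ℝ)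
    (hε : 0 < ε) : ∃ K c₀ : ℝ, 0 < c₀ ∧ ∀ g : ℕ, 1 ≤ g → ∀ (c : ℝ) (α β γ δ : ℂ),
      0 < c → c ≤ c₀ * g → c / g ≤ γ.re → c / g ≤ δ.re → |α.re| ≤ M * c / g →
      |β.re| ≤ M * c / g → ‖α - γ‖ ≤ M * c / g → ‖β - δ‖ ≤ M * c / g →
      (Fintype.card F : ℂ) ^ (2 * α) ≠ 1 → (Fintype.card F : ℂ) ^ (2 * β) ≠ 1 →
      (Fintype.card F : ℂ) ^ (α + β) ≠ 1 → (Fintype.card F : ℂ) ^ (α - β) ≠ 1 →
      ‖avg g (fun D : F[X] => Lf D (1 / 2 + α) * Lf D (1 / 2 + β) /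
          (Lf D (1 / 2 + γ) * Lf D (1 / 2 + δ))) -
        ∑ e₁ ∈ ({1, -1} : Finset ℤ), ∑ e₂ ∈ ({1, -1} : Finset ℤ),
          (Fintype.card F : ℂ) ^ (-(g * ((1 - e₁) * α + (1 - e₂) * β))) *
            GG F (e₁ * α) (e₂ * β) γ δ‖ ≤
        K * (Fintype.card F : ℝ) ^
          (-((2 - ε) * c) + 2 * g * max 0 (-α.re) + 2 * g * max 0 (-β.re)) := by
  have hF : ringChar F ≠ 2 := fun h => by
    have := FiniteField.even_card_of_char_two h
    rcases hq with ⟨k, hk⟩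
    omega
  obtain ⟨K, c₀, hK, hc₀, h⟩ := SH.fin_main hF (le_max_right M 1) (lt_min hε one_pos)
    (min_le_right _ _)
  refine ⟨K, c₀, hc₀, fun g hg c α β γ δ hc hc1 r3 r4 h1 h2 h3 h4 a1 a2 a3 a4 => ?_⟩
  have hg0 : (0 : ℝ) < g := by exact_mod_cast hg
  have hM : M * c / g ≤ max M 1 * (c / g) := by
    rw [mul_div_assoc]
    exact mul_le_mul_of_nonneg_right (le_max_left _ _) (by positivity)
  have n : ∀ {x : ℂ}, (Fintype.card F : ℂ) ^ x ≠ 1 → LS.xv F x ≠ 1 := fun hx => by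
    rw [LS.xv, Complex.cpow_neg]
    exact inv_ne_one.2 hx
  have b1 := n a1
  have b2 := n a2
  have b3 := n a3
  have b4 := n a4
  rw [SH.xv_two] at b1 b2
  rw [LS.xv_add] at b3
  have key := h g (c / g) α β γ δ hg ⟨by positivity, r3, r4, h1.trans hM, h2.trans hM,
    h3.trans hM, h4.trans hM⟩ ((div_le_iff₀ hg0).2 hc1) b1 (mul_ne_zero (mul_ne_zero (mul_ne_zero
      (sub_ne_zero.2 b1.symm) (sub_ne_zero.2 b2.symm)) (sub_ne_zero.2 b3.symm))
      (sub_ne_zero.2 fun h5 => b4 (by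
        rw [sub_eq_add_neg, LS.xv_add, LS.xv_neg, h5, mul_inv_cancel₀ (LS.xv_ne α)])))
  rw [SH.tr_eq hF hg]
  refine key.trans (mul_le_mul_of_nonneg_left (qp_mono ?_) hK)
  rw [add_mul, add_mul, neg_mul, mul_assoc (2 - min ε 1), div_mul_cancel₀ _ hg0.ne']
  nlinarith [min_le_left ε 1]

end Pool.Agent.Results.MP_dd7250_nt.RatiosSharp
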